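import Mathlib

/-!
Definitions: HFC subspaces of Cantor cubes and D-spaces.
-/

open Set Topology

namespace Pool.Agent.Lib.MP_2abaf2_gt

/-- The basic clopen set `[F * b]`: all `x` whose value at the `i`-th element of the `n`-element
set `F` (in increasing order) is `b i`, for all `i < n`. -/
def basicSet {Λ : Type*} [LinearOrder Λ] {n : ℕ} (F : {F : Finset Λ // F.card = n})
    (b : Fin n → Bool) : Set (Λ → Bool) :=
  {x | ∀ i, x (F.1.orderEmbOfFin F.2 i) = b i}

/-- `X` is HFC: for every `n`, every `b` in `2 ^ n` and every infinite family of pairwise disjoint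
`n`-element sets `F`, all but countably many points of `X` lie in some `[F * b]`. -/
def IsHFC {Λ : Type*} [LinearOrder Λ] (X : Set (Λ → Bool)) : Prop :=
  ∀ (n : ℕ) (b : Fin n → Bool) (𝓕 : Set {F : Finset Λ // F.card = n}), 𝓕.Infinite →
    𝓕.Pairwise (fun F G => Disjoint F.1 G.1) → (X \ ⋃ F ∈ 𝓕, basicSet F b).Countable

/-- `Y` is a D-space: every neighbourhood assignment has a closed discrete kernel. -/
def IsDSpace (Y : Type*) [TopologicalSpace Y] : Prop :=
  ∀ U : Y → Set Y, (∀ x, IsOpen (U x) ∧ x ∈ U x) →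
    ∃ D : Set Y, IsClosed D ∧ IsDiscrete D ∧ ⋃ x ∈ D, U x = univ

end Pool.Agent.Lib.MP_2abaf2_gt
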