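import Mathlib
import Pool.Agent.Lib.MP_2abaf2_gt.Defs

/-!
Basic consequences of HFC.
-/

open Set Topology

namespace Pool.Agent.Lib.MP_2abaf2_gt

variable {Λ : Type*} [LinearOrder Λ]

/-- the type of a point on a finite set -/
def HasType (x : Λ → Bool) (G : Finset Λ) (n : ℕ) (b : Fin n → Bool) : Prop :=
  ∃ h : G.card = n, ∀ i, x (G.orderEmbOfFin h i) = b i

theorem exists_type (x : Λ → Bool) (G : Finset Λ) :
    ∃ τ : Σ n : ℕ, (Fin n → Bool), HasType x G τ.1 τ.2 :=
  ⟨⟨G.card, fun i => x (G.orderEmbOfFin rfl i)⟩, rfl, fun _ => rfl⟩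

theorem HasType.agree {x z : Λ → Bool} {G : Finset Λ} {n : ℕ} {b : Fin n → Bool}
    (hx : HasType x G n b) (hz : HasType z G n b) : ∀ α ∈ G, z α = x α := by
  obtain ⟨h, hx⟩ := hx
  obtain ⟨h', hz⟩ := hz
  intro α hα
  have : α ∈ Set.range (G.orderEmbOfFin h) := by
    rw [Finset.range_orderEmbOfFin]
    exact hα
  obtain ⟨i, rfl⟩ := this
  rw [hx i, hz i]

/-- the HFC property applied to a family of points with disjoint finite sets of one type -/
theorem IsHFC.apply {X : Set (Λ → Bool)} (hX : IsHFC X) {S : Set (Λ → Bool)}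
    (hS : S.Infinite) {G : (Λ → Bool) → Finset Λ} (hne : ∀ x ∈ S, (G x).Nonempty)
    (hdisj : S.Pairwise fun x y => Disjoint (G x) (G y)) {n : ℕ} {b : Fin n → Bool}
    (hty : ∀ x ∈ S, HasType x (G x) n b) :
    {z | z ∈ X ∧ ∀ x ∈ S, ¬ ∀ α ∈ G x, z α = x α}.Countable := by
  have hinj : Set.InjOn G S := by
    intro x hx y hy hxy
    by_contra hne'
    have h1 : Disjoint (G x) (G y) := hdisj hx hy hne'
    rw [hxy, Finset.disjoint_self_iff_empty] at h1
    exact (hne y hy).ne_empty h1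
  set 𝓕 : Set {F : Finset Λ // F.card = n} := {F | ∃ x ∈ S, G x = F.1} with h𝓕
  have hinf : 𝓕.Infinite := by
    have h1 : (G '' S).Infinite := hS.image hinj
    have h2 : G '' S ⊆ Subtype.val '' 𝓕 := by
      rintro _ ⟨x, hx, rfl⟩
      exact ⟨⟨G x, (hty x hx).1⟩, ⟨x, hx, rfl⟩, rfl⟩
    exact (h1.mono h2).of_image _
  have hpd : 𝓕.Pairwise (fun F G => Disjoint F.1 G.1) := by
    rintro ⟨F, hF⟩ ⟨x, hx, hxF⟩ ⟨F', hF'⟩ ⟨y, hy, hyF⟩ hne'
    simp only at hxF hyF ⊢
    subst hxF hyF
    refine hdisj hx hy ?_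
    rintro rfl
    exact hne' rfl
  refine (hX n b 𝓕 hinf hpd).mono ?_
  rintro z ⟨hz, hzS⟩
  refine ⟨hz, ?_⟩
  intro hcon
  simp only [mem_iUnion] at hcon
  obtain ⟨⟨F, hF⟩, ⟨x, hx, hxF⟩, hzF⟩ := hcon
  simp only at hxF
  subst hxF
  exact hzS x hx ((hty x hx).agree ⟨hF, hzF⟩)

/-- the case `n = 1` -/
theorem IsHFC.one {X : Set (Λ → Bool)} (hX : IsHFC X) {I : Set Λ} (hI : I.Infinite) (v : Bool) :
    {z | z ∈ X ∧ ∀ α ∈ I, z α = v}.Countable := by
  set 𝓕 : Set {F : Finset Λ // F.card = 1} := {F | ∃ α ∈ I, F.1 = {α}} with h𝓕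
  have hinf : 𝓕.Infinite := by
    have h1 : ((fun α : Λ => ({α} : Finset Λ)) '' I).Infinite :=
      hI.image (Finset.singleton_injective.injOn)
    have h2 : (fun α : Λ => ({α} : Finset Λ)) '' I ⊆ Subtype.val '' 𝓕 := by
      rintro _ ⟨α, hα, rfl⟩
      exact ⟨⟨{α}, Finset.card_singleton α⟩, ⟨α, hα, rfl⟩, rfl⟩
    exact (h1.mono h2).of_image _
  have hpd : 𝓕.Pairwise (fun F G => Disjoint F.1 G.1) := by
    rintro ⟨F, hF⟩ ⟨x, hx, hxF⟩ ⟨F', hF'⟩ ⟨y, hy, hyF⟩ hne'
    simp only at hxF hyF ⊢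
    subst hxF hyF
    rw [Finset.disjoint_singleton]
    rintro rfl
    exact hne' rfl
  refine (hX 1 (fun _ => !v) 𝓕 hinf hpd).mono ?_
  rintro z ⟨hz, hzI⟩
  refine ⟨hz, ?_⟩
  intro hcon
  simp only [mem_iUnion] at hcon
  obtain ⟨⟨F, hF⟩, ⟨α, hα, hαF⟩, hzF⟩ := hcon
  simp only at hαF
  subst hαF
  have h1 : z α = !v := by
    have h2 := hzF 0
    rwa [Finset.orderEmbOfFin_singleton] at h2
  rw [hzI α hα] at h1
  cases v <;> simp at h1

/-- in an uncountable closed piece of `X`, almost all coordinates of a countable infinite set split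
the piece into two uncountable parts -/
theorem IsHFC.split {X : Set (Λ → Bool)} (hX : IsHFC X) (ι : ℕ → Λ) (hι : Function.Injective ι)
    {K : Set (Λ → Bool)} (hKX : K ⊆ X) (hK : ¬ K.Countable) (v : Bool) :
    {n | (K ∩ {x | x (ι n) = v}).Countable}.Finite := by
  by_contra hcon
  have hcon : {n | (K ∩ {x | x (ι n) = v}).Countable}.Infinite := hcon
  apply hK
  have h1 := hX.one (hcon.image hι.injOn) (!v)
  have h2 : (⋃ n ∈ {n | (K ∩ {x | x (ι n) = v}).Countable}, K ∩ {x | x (ι n) = v}).Countable :=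
    (to_countable _).biUnion fun n hn => hn
  refine (h1.union h2).mono ?_
  intro z hz
  by_cases hzv : ∃ n ∈ {n | (K ∩ {x | x (ι n) = v}).Countable}, z (ι n) = v
  · right
    obtain ⟨n, hn, hzn⟩ := hzv
    exact mem_biUnion hn ⟨hz, hzn⟩
  · left
    push Not at hzv
    refine ⟨hKX hz, ?_⟩
    rintro _ ⟨n, hn, rfl⟩
    have := hzv n hn
    cases v <;> simpa using this

/-- compact subsets of an HFC space are countable -/
theorem IsHFC.compact_countable {X : Set (Λ → Bool)} (hX : IsHFC X) {K : Set (Λ → Bool)}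
    (hKX : K ⊆ X) (hK : IsCompact K) : K.Countable := by
  rcases finite_or_infinite Λ with hΛ | hΛ
  · exact (Set.toFinite K).countable
  by_contra hKc
  obtain ⟨ι, hιi⟩ : ∃ ι : ℕ → Λ, Function.Injective ι := ⟨_, (Infinite.natEmbedding Λ).injective⟩
  -- the pieces
  set P : ℕ → (ℕ → ℕ) → (ℕ → ℕ) → (ℕ → Bool) → Set (Λ → Bool) := fun k a c s =>
    K ∩ {x | ∀ i < k, x (ι (a i)) = true ∧ x (ι (c i)) = s i} with hP
  -- extension step
  have hstep : ∀ k a c, (∀ s, ¬ (P k a c s).Countable) → ∃ a' c' : ℕ, (∀ i < k, a i < a') ∧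
      ∀ s, ¬ (P (k + 1) (Function.update a k a') (Function.update c k c') s).Countable := by
    intro k a c hgood
    -- finitely many patterns matter
    have hfin : ∀ (Q : Set (Λ → Bool)), {T | ∃ s : ℕ → Bool, T = P k a c s ∩ Q}.Finite := by
      intro Q
      have : {T | ∃ s : ℕ → Bool, T = P k a c s ∩ Q} ⊆
          range (fun s : Fin k → Bool =>
            P k a c (fun i => if h : i < k then s ⟨i, h⟩ else false) ∩ Q) := by
        rintro _ ⟨s, rfl⟩
        refine ⟨fun i => s i, ?_⟩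
        simp only [hP]
        congr 2
        ext x
        simp only [mem_ofPred_eq]
        refine forall₂_congr fun i hi => ?_
        simp [hi]
      exact (Set.finite_range _).subset this
    have hone : ∀ (Q : Set (Λ → Bool)) (v : Bool), (∀ s, ¬ (P k a c s ∩ Q).Countable) →
        {n | ∃ s, (P k a c s ∩ Q ∩ {x | x (ι n) = v}).Countable}.Finite := by
      intro Q v hQ
      have h1 : {n | ∃ s, (P k a c s ∩ Q ∩ {x | x (ι n) = v}).Countable} ⊆
          ⋃ T ∈ {T | ∃ s : ℕ → Bool, T = P k a c s ∩ Q},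
            {n | (T ∩ {x | x (ι n) = v}).Countable} := by
        rintro n ⟨s, hs⟩
        exact mem_biUnion (⟨s, rfl⟩ : P k a c s ∩ Q ∈ {T | ∃ s : ℕ → Bool, T = P k a c s ∩ Q}) hs
      refine Set.Finite.subset ?_ h1
      refine (hfin Q).biUnion ?_
      rintro _ ⟨s, rfl⟩
      exact hX.split ι hιi (fun x hx => hKX hx.1.1) (hQ s) v
    have hf1 := hone univ true (by simpa using hgood)
    obtain ⟨a', ha'⟩ := ((hf1.union (Set.finite_Iic ((Finset.range k).sup a))).infinite_compl).nonempty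
    rw [mem_compl_iff, mem_union, not_or] at ha'
    obtain ⟨ha'1, ha'2⟩ := ha'
    have ha'3 : ∀ s, ¬ (P k a c s ∩ {x | x (ι a') = true}).Countable := by
      intro s hs
      exact ha'1 ⟨s, by simpa using hs⟩
    have hf2 := hone _ true ha'3
    have hf3 := hone _ false ha'3
    obtain ⟨c', hc'⟩ := ((hf2.union hf3).infinite_compl).nonempty
    rw [mem_compl_iff, mem_union, not_or] at hc'
    obtain ⟨hc'1, hc'2⟩ := hc'
    refine ⟨a', c', ?_, ?_⟩
    · intro i hi
      simp only [mem_Iic, not_le] at ha'2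
      exact lt_of_le_of_lt (Finset.le_sup (f := a) (Finset.mem_range.2 hi)) ha'2
    · intro s hs
      have hsub : P k a c s ∩ {x | x (ι a') = true} ∩ {x | x (ι c') = s k} ⊆
          P (k + 1) (Function.update a k a') (Function.update c k c') s := by
        rintro x ⟨⟨⟨hxK, hx⟩, hxa⟩, hxc⟩
        refine ⟨hxK, ?_⟩
        intro i hi
        rcases Nat.lt_succ_iff_lt_or_eq.1 hi with h | h
        · rw [Function.update_of_ne h.ne, Function.update_of_ne h.ne]
          exact hx i h
        · subst h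
          rw [Function.update_self, Function.update_self]
          exact ⟨hxa, hxc⟩
      have h5 := hs.mono hsub
      cases hsk : s k
      · rw [hsk] at h5
        exact hc'2 ⟨s, h5⟩
      · rw [hsk] at h5
        exact hc'1 ⟨s, h5⟩
  -- recursion
  let St : Type := {p : ℕ × (ℕ → ℕ) × (ℕ → ℕ) // ∀ s, ¬ (P p.1 p.2.1 p.2.2 s).Countable}
  choose! fa fc hfa hfc using hstep
  let nxt : St → St := fun p => ⟨(p.1.1 + 1,
    Function.update p.1.2.1 p.1.1 (fa p.1.1 p.1.2.1 p.1.2.2),
    Function.update p.1.2.2 p.1.1 (fc p.1.1 p.1.2.1 p.1.2.2)),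
      hfc p.1.1 p.1.2.1 p.1.2.2 p.2⟩
  let st : ℕ → St := fun k => Nat.rec ⟨(0, 0, 0), by
    intro s
    simpa [hP] using hKc⟩ (fun _ p => nxt p) k
  have hst : ∀ k, st (k + 1) = nxt (st k) := fun k => rfl
  have hk : ∀ k, (st k).1.1 = k := by
    intro k
    induction k with
    | zero => rfl
    | succ k ih => rw [hst]; simp only [nxt]; rw [ih]
  set a : ℕ → ℕ := fun i => (st (i + 1)).1.2.1 i with ha
  set c : ℕ → ℕ := fun i => (st (i + 1)).1.2.2 i with hc
  have hag : ∀ k i, i < k → (st k).1.2.1 i = a i ∧ (st k).1.2.2 i = c i := by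
    intro k
    induction k with
    | zero => intro i hi; omega
    | succ k ih =>
      intro i hi
      rcases Nat.lt_succ_iff_lt_or_eq.1 hi with h | h
      · rw [hst]
        simp only [nxt]
        rw [hk, Function.update_of_ne h.ne, Function.update_of_ne h.ne]
        exact ih i h
      · subst h
        exact ⟨rfl, rfl⟩
  have hamono : ∀ k i, i < k → a i < a k := by
    intro k i hi
    have h1 : a k = fa k (st k).1.2.1 (st k).1.2.2 := by
      simp only [ha]
      rw [hst]
      simp only [nxt]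
      rw [hk, Function.update_self]
    rw [h1, ← (hag k i hi).1]
    have h2 := hfa (st k).1.1 (st k).1.2.1 (st k).1.2.2 (st k).2 i (by rw [hk]; exact hi)
    rwa [hk] at h2
  have hgood : ∀ k s, ¬ (P k a c s).Countable := by
    intro k s hcon
    refine (st k).2 s ?_
    have : P (st k).1.1 (st k).1.2.1 (st k).1.2.2 s = P k a c s := by
      ext x
      simp only [hP, mem_inter_iff, mem_ofPred_eq]
      rw [hk]
      refine and_congr_right fun _ => forall₂_congr fun i hi => ?_
      rw [(hag k i hi).1, (hag k i hi).2]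
    rw [this]
    exact hcon
  -- branches
  have hbr : ∀ s : ℕ → Bool, ∃ x ∈ K, ∀ i, x (ι (a i)) = true ∧ x (ι (c i)) = s i := by
    intro s
    have hclosed : ∀ k, IsClosed (P k a c s) := by
      intro k
      refine hK.isClosed.inter ?_
      have : {x : Λ → Bool | ∀ i < k, x (ι (a i)) = true ∧ x (ι (c i)) = s i} =
          ⋂ i, ⋂ (_ : i < k), {x | x (ι (a i)) = true} ∩ {x | x (ι (c i)) = s i} := by
        ext x; simp
      rw [this]
      refine isClosed_iInter fun i => isClosed_iInter fun _ => ?_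
      exact (isClosed_eq (continuous_apply _) continuous_const).inter
        (isClosed_eq (continuous_apply _) continuous_const)
    obtain ⟨x, hx⟩ := IsCompact.nonempty_iInter_of_sequence_nonempty_isCompact_isClosed
      (fun k => P k a c s) (by
        intro k x hx
        exact ⟨hx.1, fun i hi => hx.2 i (by omega)⟩)
      (fun k => by
        by_contra hne
        rw [not_nonempty_iff_eq_empty] at hne
        apply hgood k s
        rw [hne]
        exact countable_empty) (hK.of_isClosed_subset (hclosed 0) (fun x hx => hx.1)) hclosed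
    rw [mem_iInter] at hx
    exact ⟨x, (hx 0).1, fun i => (hx (i + 1)).2 i (Nat.lt_succ_self i)⟩
  choose br hbrK hbrv using hbr
  have hbinj : Function.Injective br := by
    intro s t hst'
    ext i
    rw [← (hbrv s i).2, ← (hbrv t i).2, hst']
  have hainj : Function.Injective a := by
    intro i j hij
    rcases lt_trichotomy i j with h | h | h
    · exact absurd hij (hamono j i h).ne
    · exact h
    · exact absurd hij.symm (hamono i j h).ne
  have hcount := hX.one (I := range (ι ∘ a)) (Set.infinite_range_of_injective (hιi.comp hainj)) true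
  have hrange : range br ⊆ {z | z ∈ X ∧ ∀ α ∈ range (ι ∘ a), z α = true} := by
    rintro _ ⟨s, rfl⟩
    refine ⟨hKX (hbrK s), ?_⟩
    rintro _ ⟨i, rfl⟩
    exact (hbrv s i).1
  have hc2 : (range br).Countable := hcount.mono hrange
  have hc3 : Countable (ℕ → Bool) := by
    have h1 : Countable (range br) := hc2.to_subtype
    exact (Equiv.ofInjective br hbinj).countable_iff.2 h1
  obtain ⟨g, hg⟩ := exists_surjective_nat (ℕ → Bool)
  refine Function.cantor_surjective (fun n : ℕ => {m : ℕ | g n m = true}) ?_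
  intro A
  classical
  obtain ⟨n, hn⟩ := hg (fun m => decide (m ∈ A))
  refine ⟨n, ?_⟩
  ext m
  simp [hn]

/-- Lindelöf property for covers by subbasic sets -/
theorem IsHFC.lindelof_one {X : Set (Λ → Bool)} (hX : IsHFC X) (f : (Λ → Bool) → Λ) :
    ∃ Y : Set (Λ → Bool), Y ⊆ X ∧ Y.Countable ∧ ∀ z ∈ X, ∃ y ∈ Y, z (f y) = y (f y) := by
  classical
  by_cases hinf : ∃ v, {α | ∃ x ∈ X, f x = α ∧ x α = v}.Infinite
  · obtain ⟨v, hv⟩ := hinf
    obtain ⟨J, hJ, hJc, hJi⟩ : ∃ J ⊆ {α | ∃ x ∈ X, f x = α ∧ x α = v}, J.Countable ∧ J.Infinite := by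
      refine ⟨range fun n => (hv.natEmbedding _ n : Λ), ?_, countable_range _, ?_⟩
      · rintro _ ⟨n, rfl⟩
        exact (hv.natEmbedding _ n).2
      · exact infinite_range_of_injective
          (Subtype.val_injective.comp (hv.natEmbedding _).injective)
    have hE := hX.one hJi (!v)
    have hJ' : ∀ α, ∃ x : Λ → Bool, α ∈ J → (x ∈ X ∧ f x = α ∧ x α = v) := by
      intro α
      by_cases h : α ∈ J
      · obtain ⟨x, hx⟩ := hJ h
        exact ⟨x, fun _ => hx⟩
      · exact ⟨fun _ => true, fun h' => absurd h' h⟩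
    choose y hy using hJ'
    refine ⟨y '' J ∪ {z | z ∈ X ∧ ∀ α ∈ J, z α = !v}, ?_, (hJc.image y).union hE, ?_⟩
    · rintro z (⟨α, hα, rfl⟩ | hz)
      · exact (hy α hα).1
      · exact hz.1
    · intro z hz
      by_cases hzJ : ∀ α ∈ J, z α = !v
      · exact ⟨z, Or.inr ⟨hz, hzJ⟩, rfl⟩
      · push Not at hzJ
        obtain ⟨α, hα, hzα⟩ := hzJ
        refine ⟨y α, Or.inl ⟨α, hα, rfl⟩, ?_⟩
        rw [(hy α hα).2.1, (hy α hα).2.2]
        cases v <;> simpa using hzα
  · push Not at hinf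
    have hfin : ∀ v, {α | ∃ x ∈ X, f x = α ∧ x α = v}.Finite := hinf
    have hch : ∀ (v : Bool) (α : Λ), ∃ x, (∃ x ∈ X, f x = α ∧ x α = v) →
        (x ∈ X ∧ f x = α ∧ x α = v) := by
      intro v α
      by_cases h : ∃ x ∈ X, f x = α ∧ x α = v
      · obtain ⟨x, hx⟩ := h
        exact ⟨x, fun _ => hx⟩
      · exact ⟨fun _ => true, fun h' => absurd h' h⟩
    choose y hy using hch
    refine ⟨⋃ v, (y v) '' {α | ∃ x ∈ X, f x = α ∧ x α = v}, ?_, ?_, ?_⟩
    · intro z hz
      obtain ⟨v, α, hα, rfl⟩ := mem_iUnion.1 hz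
      exact (hy v α hα).1
    · exact countable_iUnion fun v => ((hfin v).image _).countable
    · intro z hz
      have h1 : ∃ x ∈ X, f x = f z ∧ x (f z) = z (f z) := ⟨z, hz, rfl, rfl⟩
      refine ⟨y (z (f z)) (f z), mem_iUnion.2 ⟨z (f z), f z, h1, rfl⟩, ?_⟩
      obtain ⟨-, h2, h3⟩ := hy _ _ h1
      rw [h2, h3]

end Pool.Agent.Lib.MP_2abaf2_gt
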