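import Mathlib
import Pool.Agent.Lib.MP_2abaf2_gt.Basic

/-!
Infinite closed discrete sets in HFC spaces, and the basic covering step.
-/

open Set Topology

namespace Pool.Agent.Lib.MP_2abaf2_gt

variable {Λ : Type*} [LinearOrder Λ]

/-- `S` is locally finite in `X` -/
def LocFin (X S : Set (Λ → Bool)) : Prop :=
  ∀ z ∈ X, ∃ W : Set (Λ → Bool), IsOpen W ∧ z ∈ W ∧ (W ∩ S).Finite

omit [LinearOrder Λ] in
theorem LocFin.mono {X S S' : Set (Λ → Bool)} (h : LocFin X S) (hS : S' ⊆ S) : LocFin X S' := by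
  intro z hz
  obtain ⟨W, hW, hzW, hf⟩ := h z hz
  exact ⟨W, hW, hzW, hf.subset (inter_subset_inter_right _ hS)⟩

omit [LinearOrder Λ] in
theorem LocFin.finite {X S : Set (Λ → Bool)} (h : S.Finite) : LocFin X S :=
  fun _ _ => ⟨univ, isOpen_univ, trivial, h.subset inter_subset_right⟩

/-- an uncountable subset of an HFC space has an infinite closed discrete subset -/
theorem IsHFC.exists_closedDiscrete {X : Set (Λ → Bool)} (hX : IsHFC X) {A : Set (Λ → Bool)}
    (hA : A ⊆ X) (hAc : ¬ A.Countable) : ∃ S ⊆ A, S.Infinite ∧ LocFin X S := by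
  by_cases hcl : closure A ⊆ X
  · exact absurd ((hX.compact_countable hcl isClosed_closure.isCompact).mono subset_closure) hAc
  obtain ⟨p, hp, hpX⟩ := not_subset.1 hcl
  have hf : ∀ x : Λ → Bool, ∃ α, x ∈ X → x α ≠ p α := by
    intro x
    by_cases hx : x ∈ X
    · have hne : x ≠ p := by rintro rfl; exact hpX hx
      obtain ⟨α, hα⟩ := Function.ne_iff.1 hne
      exact ⟨α, fun _ => hα⟩
    · have hne : Nonempty Λ := by
        by_contra hcon
        rw [not_nonempty_iff] at hcon
        have hsub : Subsingleton (Λ → Bool) := inferInstance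
        exact hAc (Set.Subsingleton.countable (Set.subsingleton_of_subsingleton))
      exact ⟨hne.some, fun h => absurd h hx⟩
  choose f hf using hf
  obtain ⟨Y, hYX, hYc, hY⟩ := hX.lindelof_one f
  have hAne : A.Nonempty := by
    by_contra hne
    rw [not_nonempty_iff_eq_empty] at hne
    rw [hne] at hAc
    exact hAc countable_empty
  have hYne : Y.Nonempty := by
    obtain ⟨a, ha⟩ := hAne
    obtain ⟨y, hy, -⟩ := hY a (hA ha)
    exact ⟨y, hy⟩
  obtain ⟨y, rfl⟩ := hYc.exists_eq_range hYne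
  have hN : ∀ k : ℕ, ∃ a ∈ A, ∀ i < k, a (f (y i)) ≠ y i (f (y i)) := by
    intro k
    have hopen : IsOpen {z : Λ → Bool | ∀ i < k, z (f (y i)) ≠ y i (f (y i))} := by
      have : {z : Λ → Bool | ∀ i < k, z (f (y i)) ≠ y i (f (y i))} =
          ⋂ i ∈ Set.Iio k, {z : Λ → Bool | z (f (y i)) ≠ y i (f (y i))} := by
        ext z; simp
      rw [this]
      refine (Set.finite_Iio k).isOpen_biInter fun i _ => ?_
      exact isOpen_ne_fun (continuous_apply _) continuous_const
    obtain ⟨a, ha1, ha2⟩ := mem_closure_iff.1 hp _ hopen (by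
      intro i _
      exact (hf (y i) (hYX ⟨i, rfl⟩)).symm)
    exact ⟨a, ha2, ha1⟩
  choose a haA haN using hN
  have hloc : ∀ z ∈ X, ∃ i, z (f (y i)) = y i (f (y i)) := by
    intro z hz
    obtain ⟨_, ⟨i, rfl⟩, hi⟩ := hY z hz
    exact ⟨i, hi⟩
  refine ⟨range a, ?_, ?_, ?_⟩
  · rintro _ ⟨k, rfl⟩
    exact haA k
  · intro hfin
    have h1 : (a ⁻¹' range a).Finite := by
      refine hfin.preimage' ?_
      rintro _ ⟨k, rfl⟩
      obtain ⟨i, hi⟩ := hloc (a k) (hA (haA k))
      refine (Set.finite_Iic i).subset ?_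
      intro j hj
      rw [mem_preimage, mem_singleton_iff] at hj
      by_contra hcon
      rw [mem_Iic, not_le] at hcon
      have := haN j i hcon
      rw [hj] at this
      exact this hi
    rw [preimage_range] at h1
    exact Set.infinite_univ h1
  · intro z hz
    obtain ⟨i, hi⟩ := hloc z hz
    refine ⟨{w | w (f (y i)) = y i (f (y i))}, ?_, hi, ?_⟩
    · have hc : Continuous fun w : Λ → Bool => w (f (y i)) := continuous_apply _
      exact (isOpen_discrete {y i (f (y i))}).preimage hc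
    · refine ((Set.finite_Iic i).image a).subset ?_
      rintro _ ⟨hw, ⟨k, rfl⟩⟩
      refine ⟨k, ?_, rfl⟩
      by_contra hcon
      rw [mem_Iic, not_le] at hcon
      exact haN k i hcon hw

/-- the basic neighbourhood of `x` given by the finite set `F x` -/
def nb (F : (Λ → Bool) → Finset Λ) (x : Λ → Bool) : Set (Λ → Bool) :=
  {z | ∀ α ∈ F x, z α = x α}

/-- the basic set given by a finite set `R` and the set `T` of places with value `true` -/
def rb (R T : Finset Λ) : Set (Λ → Bool) := {z | ∀ α ∈ R, (z α = true ↔ α ∈ T)}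

/-- the covering step -/
theorem IsHFC.step {X : Set (Λ → Bool)} (hX : IsHFC X) (F : (Λ → Bool) → Finset Λ)
    {Y : Set (Λ → Bool)} (hY : Y ⊆ X) (R T : Finset Λ) :
    ∃ (D E : Set (Λ → Bool)) (N : Set Λ), D ⊆ Y ∧ LocFin X D ∧ E.Countable ∧ N.Countable ∧
      ∀ y ∈ Y, y ∈ rb R T → R ⊆ F y → (∀ α ∈ F y, α ∉ R → α ∉ N) → y ∉ E →
        ∃ d ∈ D, y ∈ nb F d := by
  by_cases h1 : ∃ y ∈ Y, F y = R ∧ y ∈ rb R T
  · obtain ⟨y, hy, hyR, hyr⟩ := h1
    refine ⟨{y}, ∅, ∅, singleton_subset_iff.2 hy, LocFin.finite (finite_singleton y),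
      countable_empty, countable_empty, ?_⟩
    intro z _ hzr _ _ _
    refine ⟨y, rfl, ?_⟩
    intro α hα
    rw [hyR] at hα
    have e1 := hyr α hα
    have e2 := hzr α hα
    rw [Bool.eq_iff_iff, e1, e2]
  -- maximal families
  set P : (Σ n : ℕ, (Fin n → Bool)) → Set (Λ → Bool) := fun τ =>
    {y | y ∈ Y ∧ y ∈ rb R T ∧ R ⊆ F y ∧ (F y \ R).Nonempty ∧ HasType y (F y \ R) τ.1 τ.2} with hP
  have hmax : ∀ τ, ∃ G, Maximal (· ∈ {G | G ⊆ P τ ∧
      G.Pairwise fun x y => Disjoint (F x \ R) (F y \ R)}) G := by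
    intro τ
    apply zorn_subset
    intro c hc hchain
    refine ⟨⋃₀ c, ⟨sUnion_subset fun G hG => (hc hG).1, ?_⟩, fun G hG => subset_sUnion_of_mem hG⟩
    rw [Set.pairwise_sUnion hchain.directedOn]
    exact fun G hG => (hc hG).2
  choose G hG using hmax
  by_cases h2 : ∃ τ, ¬ (G τ).Countable
  · obtain ⟨τ, hτ⟩ := h2
    obtain ⟨S, hSG, hSi, hSl⟩ := hX.exists_closedDiscrete
      (((hG τ).prop.1).trans (fun y hy => hY hy.1)) hτ
    have hSP : ∀ y ∈ S, y ∈ P τ := fun y hy => (hG τ).prop.1 (hSG hy)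
    have hE := hX.apply hSi (G := fun y => F y \ R) (fun y hy => (hSP y hy).2.2.2.1)
      ((hG τ).prop.2.mono hSG) (fun y hy => (hSP y hy).2.2.2.2)
    refine ⟨S, _, ∅, fun y hy => (hSP y hy).1, hSl, hE, countable_empty, ?_⟩
    intro y hy hyr _ _ hyE
    by_contra hcon
    push Not at hcon
    apply hyE
    refine ⟨hY hy, ?_⟩
    intro d hd hyd
    apply hcon d hd
    intro α hα
    by_cases hαR : α ∈ R
    · have e1 := (hSP d hd).2.1 α hαR
      have e2 := hyr α hαR
      rw [Bool.eq_iff_iff, e1, e2]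
    · exact hyd α (Finset.mem_sdiff.2 ⟨hα, hαR⟩)
  · push Not at h2
    have hcount : Countable (Σ n : ℕ, (Fin n → Bool)) := inferInstance
    refine ⟨∅, ∅, ⋃ τ, ⋃ y ∈ G τ, (F y : Set Λ), empty_subset _, LocFin.finite finite_empty,
      countable_empty, ?_, ?_⟩
    · exact countable_iUnion fun τ => (h2 τ).biUnion fun y _ => (Finset.finite_toSet _).countable
    · intro y hy hyr hRF hN _
      exfalso
      by_cases hne : (F y \ R).Nonempty
      · obtain ⟨τ, hτ⟩ := exists_type y (F y \ R)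
        have hyP : y ∈ P τ := ⟨hy, hyr, hRF, hne, hτ⟩
        have hdisj : ∀ x ∈ G τ, Disjoint (F y \ R) (F x \ R) := by
          intro x hx
          rw [Finset.disjoint_left]
          intro α hα hα2
          rw [Finset.mem_sdiff] at hα hα2
          exact hN α hα.1 hα.2 (mem_iUnion.2 ⟨τ, mem_biUnion hx (Finset.mem_coe.2 hα2.1)⟩)
        have hyG : y ∈ G τ := by
          have hins : insert y (G τ) ∈ {G | G ⊆ P τ ∧
              G.Pairwise fun x y => Disjoint (F x \ R) (F y \ R)} := by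
            refine ⟨insert_subset hyP (hG τ).prop.1, ?_⟩
            refine (hG τ).prop.2.insert ?_
            intro x hx _
            exact ⟨hdisj x hx, (hdisj x hx).symm⟩
          exact (hG τ).le_of_ge hins (subset_insert _ _) (mem_insert _ _)
        have h3 := hdisj y hyG
        rw [Finset.disjoint_self_iff_empty] at h3
        exact hne.ne_empty h3
      · rw [Finset.not_nonempty_iff_eq_empty, Finset.sdiff_eq_empty_iff_subset] at hne
        exact h1 ⟨y, hy, Finset.Subset.antisymm hne hRF, hyr⟩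

end Pool.Agent.Lib.MP_2abaf2_gt
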