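import Mathlib
import Pool.Agent.Lib.MP_2abaf2_gt.Steps

/-!
The closing-off argument and the main theorem.
-/

open Set Topology

namespace Pool.Agent.Lib.MP_2abaf2_gt

variable {Λ : Type*}

/-- moves: a point, or a finite set together with a subset -/
abbrev Mv (Λ : Type*) : Type _ := (Λ → Bool) ⊕ (Finset Λ × Finset Λ)

/-- the moves which live on `A` and `C` -/
def MvIn (A : Set (Λ → Bool)) (C : Set Λ) : Set (Mv Λ) :=
  {m | (∃ x ∈ A, m = Sum.inl x) ∨ ∃ R T : Finset Λ, ↑R ⊆ C ∧ ↑T ⊆ C ∧ m = Sum.inr (R, T)}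

theorem countable_finsets {C : Set Λ} (hC : C.Countable) : {R : Finset Λ | ↑R ⊆ C}.Countable := by
  classical
  have : Countable C := hC.to_subtype
  refine (Set.countable_range (fun R : Finset C => R.map (Function.Embedding.subtype _))).mono ?_
  intro R hR
  refine ⟨R.subtype (· ∈ C), ?_⟩
  exact Finset.subtype_map_of_mem (fun x hx => hR (Finset.mem_coe.2 hx))

theorem countable_MvIn {A : Set (Λ → Bool)} {C : Set Λ} (hA : A.Countable) (hC : C.Countable) :
    (MvIn A C).Countable := by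
  have h1 : MvIn A C ⊆ (Sum.inl '' A) ∪
      (Sum.inr '' ({R : Finset Λ | ↑R ⊆ C} ×ˢ {T : Finset Λ | ↑T ⊆ C})) := by
    rintro m (⟨x, hx, rfl⟩ | ⟨R, T, hR, hT, rfl⟩)
    · exact Or.inl ⟨x, hx, rfl⟩
    · exact Or.inr ⟨(R, T), ⟨hR, hT⟩, rfl⟩
  exact ((hA.image _).union (((countable_finsets hC).prod (countable_finsets hC)).image _)).mono h1

theorem MvIn_mono {A A' : Set (Λ → Bool)} {C C' : Set Λ} (hA : A ⊆ A') (hC : C ⊆ C') :
    MvIn A C ⊆ MvIn A' C' := by
  rintro m (⟨x, hx, rfl⟩ | ⟨R, T, hR, hT, rfl⟩)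
  · exact Or.inl ⟨x, hA hx, rfl⟩
  · exact Or.inr ⟨R, T, hR.trans hC, hT.trans hC, rfl⟩

theorem countable_lists {α : Type*} {S : Set α} (hS : S.Countable) :
    {l : List α | ∀ a ∈ l, a ∈ S}.Countable := by
  have : Countable S := hS.to_subtype
  have h := Set.countable_range (List.map ((↑) : S → α))
  rwa [Set.range_list_map_coe] at h

theorem finset_subset_iUnion {C : ℕ → Set Λ} (hC : Monotone C) (R : Finset Λ)
    (hR : ↑R ⊆ ⋃ k, C k) : ∃ k, ↑R ⊆ C k := by
  classical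
  induction R using Finset.induction_on with
  | empty => exact ⟨0, by simp⟩
  | insert a R _ ih =>
    rw [Finset.coe_insert, insert_subset_iff] at hR
    obtain ⟨k, hk⟩ := ih hR.2
    obtain ⟨j, hj⟩ := mem_iUnion.1 hR.1
    refine ⟨max k j, ?_⟩
    rw [Finset.coe_insert, insert_subset_iff]
    exact ⟨hC (le_max_right _ _) hj, hk.trans (hC (le_max_left _ _))⟩

/-- closing off under countable valued operations on lists of moves -/
theorem exists_closure (E : List (Mv Λ) → Mv Λ → Set (Λ → Bool)) (N : List (Mv Λ) → Mv Λ → Set Λ)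
    (hE : ∀ σ m, (E σ m).Countable) (hN : ∀ σ m, (N σ m).Countable) :
    ∃ (A : Set (Λ → Bool)) (C : Set Λ), A.Countable ∧ C.Countable ∧
      ∀ σ : List (Mv Λ), (∀ a ∈ σ, a ∈ MvIn A C) → ∀ m ∈ MvIn A C, E σ m ⊆ A ∧ N σ m ⊆ C := by
  let nA : Set (Λ → Bool) × Set Λ → Set (Λ → Bool) := fun p =>
    p.1 ∪ ⋃ σ ∈ {l : List (Mv Λ) | ∀ a ∈ l, a ∈ MvIn p.1 p.2}, ⋃ m ∈ MvIn p.1 p.2, E σ m
  let nC : Set (Λ → Bool) × Set Λ → Set Λ := fun p =>
    p.2 ∪ ⋃ σ ∈ {l : List (Mv Λ) | ∀ a ∈ l, a ∈ MvIn p.1 p.2}, ⋃ m ∈ MvIn p.1 p.2, N σ m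
  let P : ℕ → Set (Λ → Bool) × Set Λ := fun k => Nat.rec (∅, ∅) (fun _ p => (nA p, nC p)) k
  have hP : ∀ k, P (k + 1) = (nA (P k), nC (P k)) := fun k => rfl
  have hcount : ∀ k, (P k).1.Countable ∧ (P k).2.Countable := by
    intro k
    induction k with
    | zero => exact ⟨countable_empty, countable_empty⟩
    | succ k ih =>
      rw [hP]
      have h1 := countable_MvIn ih.1 ih.2
      refine ⟨ih.1.union ((countable_lists h1).biUnion fun σ _ => h1.biUnion fun m _ => hE σ m),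
        ih.2.union ((countable_lists h1).biUnion fun σ _ => h1.biUnion fun m _ => hN σ m)⟩
  have hm1 : Monotone fun k => (P k).1 :=
    monotone_nat_of_le_succ fun k => by rw [hP]; exact subset_union_left
  have hm2 : Monotone fun k => (P k).2 :=
    monotone_nat_of_le_succ fun k => by rw [hP]; exact subset_union_left
  refine ⟨⋃ k, (P k).1, ⋃ k, (P k).2, countable_iUnion fun k => (hcount k).1,
    countable_iUnion fun k => (hcount k).2, ?_⟩
  have hone : ∀ m ∈ MvIn (⋃ k, (P k).1) (⋃ k, (P k).2), ∃ k, m ∈ MvIn (P k).1 (P k).2 := by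
    rintro m (⟨x, hx, rfl⟩ | ⟨R, T, hR, hT, rfl⟩)
    · obtain ⟨k, hk⟩ := mem_iUnion.1 hx
      exact ⟨k, Or.inl ⟨x, hk, rfl⟩⟩
    · obtain ⟨k, hk⟩ := finset_subset_iUnion hm2 R hR
      obtain ⟨j, hj⟩ := finset_subset_iUnion hm2 T hT
      exact ⟨max k j, Or.inr ⟨R, T, hk.trans (hm2 (le_max_left _ _)),
        hj.trans (hm2 (le_max_right _ _)), rfl⟩⟩
  have hmono : ∀ {j k}, j ≤ k → MvIn (P j).1 (P j).2 ⊆ MvIn (P k).1 (P k).2 :=
    fun hjk => MvIn_mono (hm1 hjk) (hm2 hjk)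
  have hlist : ∀ σ : List (Mv Λ), (∀ a ∈ σ, a ∈ MvIn (⋃ k, (P k).1) (⋃ k, (P k).2)) →
      ∃ k, ∀ a ∈ σ, a ∈ MvIn (P k).1 (P k).2 := by
    intro σ
    induction σ with
    | nil => intro _; exact ⟨0, by simp⟩
    | cons b σ ih =>
      intro h
      obtain ⟨k, hk⟩ := ih (fun a ha => h a (List.mem_cons_of_mem _ ha))
      obtain ⟨j, hj⟩ := hone b (h b List.mem_cons_self)
      refine ⟨max k j, ?_⟩
      intro a ha
      rcases List.mem_cons.1 ha with rfl | ha
      · exact hmono (le_max_right _ _) hj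
      · exact hmono (le_max_left _ _) (hk a ha)
  intro σ hσ m hm
  obtain ⟨k, hk⟩ := hlist σ hσ
  obtain ⟨j, hj⟩ := hone m hm
  have hk' : σ ∈ {l : List (Mv Λ) | ∀ a ∈ l, a ∈ MvIn (P (max k j)).1 (P (max k j)).2} :=
    fun a ha => hmono (le_max_left _ _) (hk a ha)
  have hj' : m ∈ MvIn (P (max k j)).1 (P (max k j)).2 := hmono (le_max_right _ _) hj
  constructor
  · intro x hx
    refine mem_iUnion.2 ⟨max k j + 1, ?_⟩
    rw [hP]
    exact Or.inr (mem_biUnion hk' (mem_biUnion hj' hx))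
  · intro x hx
    refine mem_iUnion.2 ⟨max k j + 1, ?_⟩
    rw [hP]
    exact Or.inr (mem_biUnion hk' (mem_biUnion hj' hx))

variable [LinearOrder Λ]

/-- the combinatorial form of the main theorem -/
theorem IsHFC.exists_kernel {X : Set (Λ → Bool)} (hX : IsHFC X) (F : (Λ → Bool) → Finset Λ) :
    ∃ D ⊆ X, LocFin X D ∧ ∀ y ∈ X, ∃ d ∈ D, y ∈ nb F d := by
  classical
  have hself : ∀ x, x ∈ nb F x := fun x α _ => rfl
  have hopen : ∀ x, IsOpen (nb F x) := by
    intro x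
    have : nb F x = ⋂ α ∈ (F x : Set Λ), {z : Λ → Bool | z α = x α} := by
      ext z; simp [nb]
    rw [this]
    refine (Finset.finite_toSet _).isOpen_biInter fun α _ => ?_
    have hc : Continuous fun w : Λ → Bool => w α := continuous_apply _
    exact (isOpen_discrete {x α}).preimage hc
  -- one step
  have hstep : ∀ (Y : Set (Λ → Bool)) (m : Mv Λ), ∃ (D E : Set (Λ → Bool)) (N : Set Λ),
      E.Countable ∧ N.Countable ∧ (Y ⊆ X → D ⊆ Y ∧ LocFin X D ∧
        (∀ x, m = Sum.inl x → x ∈ Y → ∃ d ∈ D, x ∈ nb F d) ∧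
        (∀ R T, m = Sum.inr (R, T) → ∀ y ∈ Y, y ∈ rb R T → R ⊆ F y →
          (∀ α ∈ F y, α ∉ R → α ∉ N) → y ∉ E → ∃ d ∈ D, y ∈ nb F d)) := by
    intro Y m
    by_cases hY : Y ⊆ X
    · rcases m with x | ⟨R, T⟩
      · refine ⟨{x} ∩ Y, ∅, ∅, countable_empty, countable_empty, fun _ =>
          ⟨inter_subset_right, LocFin.finite ((finite_singleton x).inter_of_left _), ?_, ?_⟩⟩
        · rintro x' hx' hxY
          rw [Sum.inl.injEq] at hx'
          subst hx'
          exact ⟨x, ⟨rfl, hxY⟩, hself x⟩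
        · rintro R T h
          exact absurd h (by simp)
      · obtain ⟨D, E, N, hD, hDl, hE, hN, hc⟩ := hX.step F hY R T
        refine ⟨D, E, N, hE, hN, fun _ => ⟨hD, hDl, ?_, ?_⟩⟩
        · intro x h
          exact absurd h (by simp)
        · intro R' T' h
          rw [Sum.inr.injEq, Prod.mk.injEq] at h
          obtain ⟨rfl, rfl⟩ := h
          exact hc
    · exact ⟨∅, ∅, ∅, countable_empty, countable_empty, fun h => absurd h hY⟩
  choose Df Ef Nf hEf hNf hDf using hstep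
  -- the remaining set after a list of moves
  let Ys : List (Mv Λ) → Set (Λ → Bool) := fun σ =>
    List.rec X (fun m _ Y => Y \ ⋃ d ∈ Df Y m, nb F d) σ
  have hYs : ∀ m σ, Ys (m :: σ) = Ys σ \ ⋃ d ∈ Df (Ys σ) m, nb F d := fun m σ => rfl
  have hYsX : ∀ σ, Ys σ ⊆ X := by
    intro σ
    induction σ with
    | nil => exact Subset.rfl
    | cons m σ ih =>
      rw [hYs]
      exact sdiff_subset.trans ih
  obtain ⟨A, C, hA, hC, hcl⟩ := exists_closure (fun σ m => Ef (Ys σ) m) (fun σ m => Nf (Ys σ) m)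
    (fun σ m => hEf _ _) (fun σ m => hNf _ _)
  have hne : (MvIn A C).Nonempty := ⟨Sum.inr (∅, ∅), Or.inr ⟨∅, ∅, by simp, by simp, rfl⟩⟩
  obtain ⟨e, he⟩ := (countable_MvIn hA hC).exists_eq_range hne
  let σ : ℕ → List (Mv Λ) := fun n => Nat.rec [] (fun k l => e k :: l) n
  have hσ : ∀ n, σ (n + 1) = e n :: σ n := fun n => rfl
  have hσin : ∀ n, ∀ a ∈ σ n, a ∈ MvIn A C := by
    intro n
    induction n with
    | zero => intro a ha; exact absurd ha (by simp [σ])
    | succ n ih =>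
      intro a ha
      rw [hσ] at ha
      rcases List.mem_cons.1 ha with rfl | ha
      · rw [he]; exact ⟨n, rfl⟩
      · exact ih a ha
  set D : ℕ → Set (Λ → Bool) := fun n => Df (Ys (σ n)) (e n) with hD
  have hDn := fun n => hDf (Ys (σ n)) (e n) (hYsX _)
  have hYanti : Antitone fun n => Ys (σ n) :=
    antitone_nat_of_succ_le fun n => by
      rw [hσ, hYs]
      exact sdiff_subset
  have hcov : ∀ z ∈ X, ∃ n, ∃ d ∈ D n, z ∈ nb F d := by
    intro z hz
    by_contra hcon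
    push Not at hcon
    have hyY : ∀ n, z ∈ Ys (σ n) := by
      intro n
      induction n with
      | zero => exact hz
      | succ n ih =>
        rw [hσ, hYs]
        refine ⟨ih, ?_⟩
        intro h
        simp only [mem_iUnion] at h
        obtain ⟨d, hd, hyd⟩ := h
        exact hcon n d hd hyd
    by_cases hyA : z ∈ A
    · have hm : (Sum.inl z : Mv Λ) ∈ MvIn A C := Or.inl ⟨z, hyA, rfl⟩
      rw [he] at hm
      obtain ⟨n, hn⟩ := hm
      obtain ⟨d, hd, hyd⟩ := (hDn n).2.2.1 z hn (hyY n)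
      exact hcon n d hd hyd
    · set R : Finset Λ := (F z).filter (· ∈ C) with hR
      set T : Finset Λ := R.filter (fun α => z α = true) with hT
      have hRC : ↑R ⊆ C := by
        intro α hα
        exact (Finset.mem_filter.1 (Finset.mem_coe.1 hα)).2
      have hTC : ↑T ⊆ C := by
        intro α hα
        exact hRC (Finset.mem_coe.2 (Finset.mem_filter.1 (Finset.mem_coe.1 hα)).1)
      have hm : (Sum.inr (R, T) : Mv Λ) ∈ MvIn A C := Or.inr ⟨R, T, hRC, hTC, rfl⟩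
      have hm' := hm
      rw [he] at hm'
      obtain ⟨n, hn⟩ := hm'
      have h3 := hcl (σ n) (hσin n) _ hm
      rw [← hn] at h3
      obtain ⟨d, hd, hyd⟩ := (hDn n).2.2.2 R T hn z (hyY n) (by
        intro α hα
        simp [hT, hα]) (Finset.filter_subset _ _) (by
        intro α hα hαR hαN
        exact hαR (Finset.mem_filter.2 ⟨hα, h3.2 hαN⟩)) (fun hyE => hyA (h3.1 hyE))
      exact hcon n d hd hyd
  refine ⟨⋃ n, D n, iUnion_subset fun n => (hDn n).1.trans (hYsX _), ?_, ?_⟩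
  swap
  · -- it is a kernel
    intro y hy
    obtain ⟨n, d, hd, hyd⟩ := hcov y hy
    exact ⟨d, mem_iUnion.2 ⟨n, hd⟩, hyd⟩
  · -- it is locally finite
    intro z hz
    obtain ⟨n, d, hd, hzd⟩ := hcov z hz
    choose W hW hzW hWf using fun i => (hDn i).2.1 z hz
    refine ⟨nb F d ∩ ⋂ i ∈ Set.Iic n, W i, (hopen d).inter
      ((Set.finite_Iic n).isOpen_biInter fun i _ => hW i), ⟨hzd, by
        simp only [mem_iInter]; exact fun i _ => hzW i⟩, ?_⟩
    refine ((Set.finite_Iic n).biUnion fun i _ => hWf i).subset ?_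
    rintro x ⟨⟨hxd, hxW⟩, hxD⟩
    obtain ⟨i, hi⟩ := mem_iUnion.1 hxD
    have hin : i ≤ n := by
      by_contra hcon
      push Not at hcon
      have h1 : x ∈ Ys (σ i) := (hDn i).1 hi
      have h2 : x ∈ Ys (σ (n + 1)) := hYanti (Nat.succ_le_of_lt hcon) h1
      rw [hσ, hYs] at h2
      exact h2.2 (mem_biUnion hd hxd)
    simp only [mem_iInter] at hxW
    exact mem_biUnion (show i ∈ Set.Iic n from hin) ⟨hxW i hin, hi⟩

/-- every HFC space is a D-space -/
theorem IsHFC.isDSpace {X : Set (Λ → Bool)} (hX : IsHFC X) : IsDSpace X := by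
  classical
  intro U hU
  -- finite sets of coordinates
  have hF : ∀ x : Λ → Bool, ∃ G : Finset Λ, ∀ hx : x ∈ X, ∀ z : X, (∀ α ∈ G, z.1 α = x α) →
      z ∈ U ⟨x, hx⟩ := by
    intro x
    by_cases hx : x ∈ X
    · obtain ⟨V, hV, hVU⟩ := isOpen_induced_iff.1 (hU ⟨x, hx⟩).1
      have hxV : x ∈ V := by
        have : (⟨x, hx⟩ : X) ∈ Subtype.val ⁻¹' V := by rw [hVU]; exact (hU _).2
        exact this
      obtain ⟨G, u, hu, hGV⟩ := isOpen_pi_iff.1 hV x hxV
      refine ⟨G, ?_⟩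
      intro hx' z hz
      rw [← hVU]
      apply hGV
      intro α hα
      rw [hz α hα]
      exact (hu α hα).2
    · exact ⟨∅, fun h => absurd h hx⟩
  choose F hF using hF
  obtain ⟨D, hDX, hDl, hDk⟩ := hX.exists_kernel F
  have hacc : ∀ z : X, ∃ W : Set X, IsOpen W ∧ z ∈ W ∧ W ∩ (Subtype.val ⁻¹' D) ⊆ {z} := by
    intro z
    obtain ⟨W, hW, hzW, hWf⟩ := hDl z.1 z.2
    refine ⟨Subtype.val ⁻¹' (W \ ((W ∩ D) \ {z.1})), ?_, ?_, ?_⟩
    · exact (hW.sdiff ((hWf.subset sdiff_subset).isClosed)).preimage continuous_subtype_val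
    · exact ⟨hzW, fun h => h.2 rfl⟩
    · rintro w ⟨⟨hw1, hw2⟩, hwD⟩
      by_contra hne
      exact hw2 ⟨⟨hw1, hwD⟩, fun h => hne (Subtype.ext h)⟩
  refine ⟨Subtype.val ⁻¹' D, ?_, ?_, ?_⟩
  · rw [← isOpen_compl_iff, isOpen_iff_mem_nhds]
    intro z hz
    obtain ⟨W, hW, hzW, hWD⟩ := hacc z
    filter_upwards [hW.mem_nhds hzW] with w hw hwD
    have := hWD ⟨hw, hwD⟩
    rw [mem_singleton_iff] at this
    subst this
    exact hz hwD
  · rw [isDiscrete_iff_forall_mem_exists_isOpen]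
    intro z hz
    obtain ⟨W, hW, hzW, hWD⟩ := hacc z
    exact ⟨W, hW, Subset.antisymm hWD (singleton_subset_iff.2 ⟨hzW, hz⟩)⟩
  · rw [eq_univ_iff_forall]
    intro y
    obtain ⟨d, hd, hyd⟩ := hDk y.1 y.2
    exact mem_biUnion (show (⟨d, hDX hd⟩ : X) ∈ Subtype.val ⁻¹' D from hd)
      (hF d (hDX hd) y hyd)

end Pool.Agent.Lib.MP_2abaf2_gt
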